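import Mathlib
import Pool.Agent.H744R2.KZ.Props

/-!
# A_ad: amplifications of inner derivations
-/

open scoped ComplexOrder InnerProductSpace ComplexConjugate Topology
open Finset Filter

noncomputable section

namespace H744R2.KZ

open H759R2.Kad

universe u

namespace Aad819aux

variable {H : Type u} [NormedAddCommGroup H] [InnerProductSpace ℂ H] [CompleteSpace H]

theorem dg_norm (n : ℕ) (T : H →L[ℂ] H) : ‖dg n T‖ ≤ ‖T‖ := by
  apply ContinuousLinearMap.opNorm_le_bound _ (norm_nonneg _)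
  intro v
  have h1 : ‖dg n T v‖ ^ 2 ≤ (‖T‖ * ‖v‖) ^ 2 := by
    rw [PiLp.norm_sq_eq_of_L2, mul_pow, PiLp.norm_sq_eq_of_L2, Finset.mul_sum]
    apply Finset.sum_le_sum
    intro i _
    rw [dg_apply, ← mul_pow]
    exact pow_le_pow_left₀ (norm_nonneg _) (T.le_opNorm _) 2
  exact (pow_le_pow_iff_left₀ (norm_nonneg _) (by positivity) (by norm_num)).mp h1

end Aad819aux

open Aad819aux in
theorem prove_A_ad : A_ad.{u} := by
  intro B _ _ _ L _ _ _ π D T hD n X
  have h1 : amp D (Fin n) X = dg n T * ampHom π (Fin n) X - ampHom π (Fin n) X * dg n T := by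
    ext v i
    rw [amp_apply]
    have e1 : (dg n T * ampHom π (Fin n) X - ampHom π (Fin n) X * dg n T) v i =
        (dg n T (ampHom π (Fin n) X v)) i - (ampHom π (Fin n) X (dg n T v)) i := rfl
    rw [e1, dg_apply, ampHom_apply, amp_apply, amp_apply, map_sum, ← Finset.sum_sub_distrib]
    refine Finset.sum_congr rfl fun j _ => ?_
    rw [dg_apply, hD]
    rfl
  have h2 : ‖ampHom π (Fin n) X‖ ≤ ‖X‖ := NonUnitalStarAlgHom.norm_apply_le (ampHom π (Fin n)) X
  have h3 := dg_norm n T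
  rw [h1]
  calc _ ≤ ‖dg n T * ampHom π (Fin n) X‖ + ‖ampHom π (Fin n) X * dg n T‖ := norm_sub_le _ _
    _ ≤ ‖dg n T‖ * ‖ampHom π (Fin n) X‖ + ‖ampHom π (Fin n) X‖ * ‖dg n T‖ :=
        add_le_add (norm_mul_le _ _) (norm_mul_le _ _)
    _ ≤ ‖T‖ * ‖X‖ + ‖X‖ * ‖T‖ := by
        apply add_le_add
        · exact mul_le_mul h3 h2 (norm_nonneg _) (norm_nonneg _)
        · exact mul_le_mul h2 h3 (norm_nonneg _) (norm_nonneg _)
    _ = 2 * ‖T‖ * ‖X‖ := by ring

end H744R2.KZ
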